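import Mathlib

set_option autoImplicit false

/-!
Finite graph connectivity in terms of finite vertex sets.
-/

namespace Pool.Agent.Helper434_conn

open Finset

variable {V : Type*} [Fintype V] [DecidableEq V] (G : SimpleGraph V) [DecidableRel G.Adj]

/-- Number of neighbours of `v` in `A`. -/
def dg (A : Finset V) (v : V) : ℕ := (A.filter (fun w => G.Adj v w)).card

omit [Fintype V] [DecidableEq V] in
theorem dg_le_card (A : Finset V) (v : V) : dg G A v ≤ A.card := card_filter_le _ _

omit [Fintype V] in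
theorem dg_union {A B : Finset V} (h : Disjoint A B) (v : V) :
    dg G (A ∪ B) v = dg G A v + dg G B v := by
  unfold dg
  rw [filter_union, card_union_of_disjoint]
  exact disjoint_filter_filter h

omit [Fintype V] [DecidableEq V] in
theorem dg_mono {A B : Finset V} (h : A ⊆ B) (v : V) : dg G A v ≤ dg G B v :=
  card_le_card (filter_subset_filter _ h)

omit [Fintype V] [DecidableEq V] in
theorem dg_eq_zero {A : Finset V} {v : V} (h : ∀ w ∈ A, ¬ G.Adj v w) : dg G A v = 0 := by
  unfold dg
  rw [card_eq_zero, filter_eq_empty_iff]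
  intro w hw
  exact h w hw

omit [Fintype V] in
theorem dg_insert {A : Finset V} {u : V} (hu : u ∉ A) (v : V) :
    dg G (insert u A) v = dg G A v + if G.Adj v u then 1 else 0 := by
  unfold dg
  rw [filter_insert]
  split_ifs with h
  · rw [card_insert_of_notMem]
    simp [hu]
  · simp

omit [Fintype V] in
theorem dg_insert_self {A : Finset V} {u : V} (hu : u ∉ A) :
    dg G (insert u A) u = dg G A u := by
  rw [dg_insert G hu]; simp

omit [Fintype V] in
theorem dg_lt_card_of_mem {A : Finset V} {v : V} (hv : v ∈ A) : dg G A v + 1 ≤ A.card := by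
  have h : A.filter (fun w => G.Adj v w) ⊆ A.erase v := by
    intro w hw
    rw [mem_filter] at hw
    exact mem_erase.mpr ⟨fun h => by subst h; exact G.loopless.irrefl _ hw.2, hw.1⟩
  have h2 := card_le_card h
  rw [card_erase_of_mem hv] at h2
  have h3 : 0 < A.card := card_pos.mpr ⟨v, hv⟩
  unfold dg
  omega

theorem dg_add_compl (A : Finset V) (v : V) : dg G A v + dg G Aᶜ v = G.degree v := by
  rw [← dg_union G disjoint_compl_right, union_compl]
  unfold dg
  rw [← G.card_neighborFinset_eq_degree]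
  congr 1
  ext w
  simp

/-- `Z` is nonempty and there is an edge across every nontrivial bipartition of `Z`. -/
def Linked (Z : Finset V) : Prop :=
  Z.Nonempty ∧ ∀ C ⊆ Z, C.Nonempty → (Z \ C).Nonempty → ∃ u ∈ C, ∃ v ∈ Z \ C, G.Adj u v

omit [Fintype V] [DecidableRel G.Adj] in
theorem linked_iff (Z : Finset V) : (G.induce (Z : Set V)).Connected ↔ Linked G Z := by
  constructor
  · intro h
    refine ⟨?_, ?_⟩
    · obtain ⟨⟨z, hz⟩⟩ := h.nonempty
      exact ⟨z, by simpa using hz⟩
    · intro C hC hCn hZC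
      obtain ⟨u, hu⟩ := hCn
      obtain ⟨v, hv⟩ := hZC
      rw [mem_sdiff] at hv
      have huZ : u ∈ (Z : Set V) := by simpa using hC hu
      have hvZ : v ∈ (Z : Set V) := by simpa using hv.1
      obtain ⟨p⟩ := h.preconnected ⟨u, huZ⟩ ⟨v, hvZ⟩
      obtain ⟨d, -, hd1, hd2⟩ := p.exists_boundary_dart {w | w.1 ∈ C} hu hv.2
      refine ⟨d.fst.1, hd1, d.snd.1, ?_, ?_⟩
      · rw [mem_sdiff]
        exact ⟨by simpa using d.snd.2, hd2⟩
      · have := d.adj
        simpa using this
  · rintro ⟨⟨z, hz⟩, h⟩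
    haveI : Nonempty ((Z : Set V) : Type _) := ⟨⟨z, by simpa using hz⟩⟩
    refine ⟨?_⟩
    intro x y
    classical
    by_contra hxy
    let C : Finset V := Z.filter (fun w => ∃ hw : w ∈ (Z : Set V), (G.induce (Z : Set V)).Reachable x ⟨w, hw⟩)
    have hCZ : C ⊆ Z := filter_subset _ _
    have hxC : x.1 ∈ C := by
      rw [mem_filter]
      exact ⟨by simpa using x.2, x.2, SimpleGraph.Reachable.refl _⟩
    have hyC : y.1 ∈ Z \ C := by
      rw [mem_sdiff]
      refine ⟨by simpa using y.2, ?_⟩
      intro hy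
      rw [mem_filter] at hy
      obtain ⟨-, hw, hr⟩ := hy
      exact hxy hr
    obtain ⟨u, hu, v, hv, huv⟩ := h C hCZ ⟨_, hxC⟩ ⟨_, hyC⟩
    rw [mem_filter] at hu
    obtain ⟨huZ, hw, hr⟩ := hu
    rw [mem_sdiff] at hv
    apply hv.2
    rw [mem_filter]
    refine ⟨hv.1, by simpa using hv.1, ?_⟩
    refine hr.trans (SimpleGraph.Adj.reachable ?_)
    simpa using huv

/-- `G[A]` is `k`-connected. -/
def KConn (k : ℕ) (A : Finset V) : Prop :=
  k < A.card ∧ ∀ X ⊆ A, X.card < k → Linked G (A \ X)

omit [Fintype V] [DecidableRel G.Adj] in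
theorem kconn_iff (k : ℕ) (A : Finset V) :
    (k < A.card ∧ ∀ X : Finset V, X ⊆ A → X.card < k →
      (G.induce ((A \ X : Finset V) : Set V)).Connected) ↔ KConn G k A := by
  unfold KConn
  simp only [linked_iff]

end Pool.Agent.Helper434_conn
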