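import Pool.Agent.Helper434_conn.Basic

set_option autoImplicit false

/-!
Extending a pair of disjoint highly connected subgraphs to a bipartition of the vertex set.
-/

namespace Pool.Agent.Helper434_conn

open Finset

variable {V : Type*} [Fintype V] [DecidableEq V] (G : SimpleGraph V) [DecidableRel G.Adj]

omit [Fintype V] [DecidableRel G.Adj] in
theorem linked_side {Z C : Finset V} (hZ : Linked G Z) {W : Finset V} (hWZ : Z ⊆ W) (hC : C ⊆ W)
    (hno : ∀ u ∈ C, ∀ v ∈ W \ C, ¬ G.Adj u v) : Z ⊆ C ∨ Disjoint Z C := by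
  by_contra hcon
  push Not at hcon
  obtain ⟨h1, h2⟩ := hcon
  have h3 : (Z ∩ C).Nonempty := by
    rw [nonempty_iff_ne_empty]
    intro h
    exact h2 (disjoint_iff_inter_eq_empty.mpr h)
  have h4 : (Z \ (Z ∩ C)).Nonempty := by
    obtain ⟨z, hz, hzC⟩ := not_subset.mp h1
    exact ⟨z, by rw [mem_sdiff, mem_inter]; exact ⟨hz, fun h => hzC h.2⟩⟩
  obtain ⟨u, hu, v, hv, huv⟩ := hZ.2 (Z ∩ C) inter_subset_left h3 h4
  rw [mem_inter] at hu
  rw [mem_sdiff, mem_inter] at hv
  refine hno u hu.2 v ?_ huv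
  rw [mem_sdiff]
  exact ⟨hWZ hv.1, fun h => hv.2 ⟨hv.1, h⟩⟩

omit [Fintype V] [DecidableRel G.Adj] in
/-- A `k`-connected set cannot cross a separation of order `< k`. -/
theorem kconn_side {k : ℕ} {S U Y C : Finset V} (hS : KConn G k S) (hSU : S ⊆ U)
    (hY : Y.card < k) (hC : C ⊆ U \ Y)
    (hno : ∀ u ∈ C, ∀ v ∈ (U \ Y) \ C, ¬ G.Adj u v) : S ⊆ C ∪ Y ∨ Disjoint S C := by
  have h1 : Linked G (S \ (S ∩ Y)) := hS.2 _ inter_subset_left
    (lt_of_le_of_lt (card_le_card inter_subset_right) hY)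
  have h2 : S \ (S ∩ Y) = S \ Y := by
    ext v; simp
  rw [h2] at h1
  rcases linked_side G h1 (W := U \ Y) (sdiff_subset_sdiff hSU (Subset.refl _)) hC hno with h | h
  · left
    intro v hv
    rw [mem_union]
    by_cases hvY : v ∈ Y
    · exact Or.inr hvY
    · exact Or.inl (h (mem_sdiff.mpr ⟨hv, hvY⟩))
  · right
    rw [disjoint_left] at h ⊢
    intro v hv hvC
    exact h (mem_sdiff.mpr ⟨hv, (mem_sdiff.mp (hC hvC)).2⟩) hvC

omit [DecidableRel G.Adj] in
/-- In an `(s+t-1)`-connected graph, disjoint `s`-connected and `t`-connected subgraphs extend to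
a bipartition into an `s`-connected and a `t`-connected part. -/
theorem exists_partition (s t : ℕ) (hs : 1 ≤ s) (hG : KConn G (s + t - 1) (univ : Finset V))
    {A₀ B₀ : Finset V} (hA : KConn G s A₀) (hB : KConn G t B₀) (hd : Disjoint A₀ B₀) :
    ∃ A B : Finset V, Disjoint A B ∧ A ∪ B = univ ∧ KConn G s A ∧ KConn G t B := by
  classical
  obtain ⟨A, hAm, hAmax⟩ := exists_max_image
    ((univ : Finset (Finset V)).filter (fun A => KConn G s A ∧ Disjoint A B₀))
    (fun A => A.card) ⟨A₀, by rw [mem_filter]; exact ⟨mem_univ _, hA, hd⟩⟩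
  rw [mem_filter] at hAm
  obtain ⟨-, hAs, hAB⟩ := hAm
  refine ⟨A, Aᶜ, disjoint_compl_right, union_compl A, hAs, ?_⟩
  have hB₀ : B₀ ⊆ Aᶜ := by
    intro v hv
    rw [mem_compl]
    intro h
    exact (disjoint_left.mp hAB) h hv
  by_contra hnot
  unfold KConn at hnot
  push Not at hnot
  obtain ⟨Y, hYA, hYc, hYl⟩ := hnot (lt_of_lt_of_le hB.1 (card_le_card hB₀))
  have hne : (Aᶜ \ Y).Nonempty := by
    rw [← card_pos]
    have h1 := card_sdiff_add_card_eq_card hYA
    have h2 := hB.1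
    have h3 := card_le_card hB₀
    omega
  unfold Linked at hYl
  push Not at hYl
  obtain ⟨C, hC, hCn, hC2, hno⟩ := hYl hne
  -- choose the side of the separation which avoids `B₀`
  obtain ⟨W, hW, hWn, hWno, hWB⟩ : ∃ W ⊆ Aᶜ \ Y, W.Nonempty ∧
      (∀ u ∈ W, ∀ v ∈ (Aᶜ \ Y) \ W, ¬ G.Adj u v) ∧ Disjoint B₀ W := by
    rcases kconn_side G hB hB₀ hYc hC hno with h | h
    · refine ⟨(Aᶜ \ Y) \ C, sdiff_subset, hC2, ?_, ?_⟩
      · intro u hu v hv hadj
        rw [Finset.sdiff_sdiff_eq_self hC] at hv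
        exact hno v hv u hu hadj.symm
      · rw [disjoint_left]
        intro v hv hv2
        rw [mem_sdiff, mem_sdiff] at hv2
        have := h hv
        rw [mem_union] at this
        rcases this with h' | h'
        · exact hv2.2 h'
        · exact hv2.1.2 h'
    · exact ⟨C, hC, hCn, hno, h⟩
  have hWA : Disjoint A W := by
    rw [disjoint_left]
    intro v hv hv2
    exact (mem_compl.mp (mem_sdiff.mp (hW hv2)).1) hv
  -- A ∪ W is s-connected
  have hAW : KConn G s (A ∪ W) := by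
    refine ⟨lt_of_lt_of_le hAs.1 (card_le_card subset_union_left), ?_⟩
    intro X hX hXc
    have hAX : Linked G (A \ (A ∩ X)) := hAs.2 _ inter_subset_left
      (lt_of_le_of_lt (card_le_card inter_subset_right) hXc)
    have h2 : A \ (A ∩ X) = A \ X := by ext v; simp
    rw [h2] at hAX
    have hsub : A \ X ⊆ (A ∪ W) \ X := sdiff_subset_sdiff subset_union_left (Subset.refl _)
    refine ⟨hAX.1.mono hsub, ?_⟩
    -- a side `D` of a bipartition avoiding `A \ X`
    have main : ∀ D ⊆ (A ∪ W) \ X, D.Nonempty → Disjoint (A \ X) D →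
        ∃ u ∈ D, ∃ v ∈ ((A ∪ W) \ X) \ D, G.Adj u v := by
      intro D hD hDn hDA
      have hDW : D ⊆ W := by
        intro v hv
        have h := hD hv
        rw [mem_sdiff, mem_union] at h
        rcases h.1 with h' | h'
        · exact absurd hv ((disjoint_left.mp hDA) (mem_sdiff.mpr ⟨h', h.2⟩))
        · exact h'
      have hXY : (X ∪ Y).card < s + t - 1 := by
        have := card_union_le X Y
        omega
      have hlink := hG.2 (X ∪ Y) (subset_univ _) hXY
      have hDsub : D ⊆ univ \ (X ∪ Y) := by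
        intro v hv
        rw [mem_sdiff, mem_union]
        refine ⟨mem_univ _, ?_⟩
        rintro (h | h)
        · exact (mem_sdiff.mp (hD hv)).2 h
        · exact (mem_sdiff.mp (hW (hDW hv))).2 h
      obtain ⟨a, ha⟩ := hAX.1
      have hane : ((univ \ (X ∪ Y)) \ D).Nonempty := by
        refine ⟨a, ?_⟩
        rw [mem_sdiff] at ha
        rw [mem_sdiff, mem_sdiff, mem_union]
        refine ⟨⟨mem_univ _, ?_⟩, fun h => (disjoint_left.mp hDA) (mem_sdiff.mpr ha) h⟩
        rintro (h | h)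
        · exact ha.2 h
        · exact (mem_compl.mp (hYA h)) ha.1
      obtain ⟨u, hu, v, hv, huv⟩ := hlink.2 D hDsub hDn hane
      refine ⟨u, hu, v, ?_, huv⟩
      rw [mem_sdiff, mem_sdiff, mem_union] at hv
      obtain ⟨⟨-, hvXY⟩, hvD⟩ := hv
      push Not at hvXY
      rw [mem_sdiff, mem_sdiff, mem_union]
      refine ⟨⟨?_, hvXY.1⟩, hvD⟩
      by_contra hvAW
      push Not at hvAW
      refine hWno u (hDW hu) v ?_ huv
      rw [mem_sdiff, mem_sdiff, mem_compl]
      exact ⟨⟨hvAW.1, hvXY.2⟩, hvAW.2⟩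
    intro D hD hDn hDc
    by_contra hnoedge
    push Not at hnoedge
    rcases linked_side G hAX hsub hD hnoedge with h | h
    · -- A \ X ⊆ D, use the other side
      have hdis : Disjoint (A \ X) (((A ∪ W) \ X) \ D) := by
        rw [disjoint_left]
        intro v hv hv2
        exact (mem_sdiff.mp hv2).2 (h hv)
      obtain ⟨u, hu, v, hv, huv⟩ := main (((A ∪ W) \ X) \ D) sdiff_subset hDc hdis
      rw [Finset.sdiff_sdiff_eq_self hD] at hv
      exact hnoedge v hv u hu huv.symm
    · obtain ⟨u, hu, v, hv, huv⟩ := main D hD hDn h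
      exact hnoedge u hu v hv huv
  have hmem : A ∪ W ∈ (univ : Finset (Finset V)).filter (fun A => KConn G s A ∧ Disjoint A B₀) := by
    rw [mem_filter]
    exact ⟨mem_univ _, hAW, disjoint_union_left.mpr ⟨hAB, hWB.symm⟩⟩
  have h5 := hAmax _ hmem
  have h6 : (A ∪ W).card = A.card + W.card := card_union_of_disjoint hWA
  have h7 : 0 < W.card := card_pos.mpr hWn
  omega

end Pool.Agent.Helper434_conn
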