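import Pool.Agent.Helper434_conn.Basic

set_option autoImplicit false

/-!
Minimum degree at least `3 s - 4` forces an `s`-connected subgraph (`s = r + 1`, `3 r - 1 = 3 s - 4`).
-/

namespace Pool.Agent.Helper434_conn

open Finset

variable {V : Type*} [Fintype V] [DecidableEq V] (G : SimpleGraph V) [DecidableRel G.Adj]

/-- The boundary weight of `U` inside `P`. -/
def bw (r : ℕ) (P U : Finset V) : ℕ := ∑ v ∈ U, min r (dg G (P \ U) v)

omit [Fintype V] in
/-- the boundary weight after deleting one side `C` of a separation `(C, Y, rest)` of `U`. -/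
theorem bw_side (r : ℕ) {P U Y C : Finset V} (hU : U ⊆ P) (hY : Y ⊆ U) (hC : C ⊆ U \ Y)
    (hno : ∀ u ∈ C, ∀ v ∈ (U \ Y) \ C, ¬ G.Adj u v) :
    bw G r P (U \ C) = ∑ v ∈ (U \ Y) \ C, min r (dg G (P \ U) v) +
      ∑ y ∈ Y, min r (dg G (P \ U) y + dg G C y) := by
  have hCU : C ⊆ U := hC.trans sdiff_subset
  have hsplit : U \ C = ((U \ Y) \ C) ∪ Y := by
    ext v
    simp only [mem_sdiff, mem_union]
    constructor
    · rintro ⟨h1, h2⟩
      by_cases hy : v ∈ Y
      · exact Or.inr hy
      · exact Or.inl ⟨⟨h1, hy⟩, h2⟩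
    · rintro (⟨⟨h1, -⟩, h2⟩ | h)
      · exact ⟨h1, h2⟩
      · refine ⟨hY h, fun hc => ?_⟩
        exact (mem_sdiff.mp (hC hc)).2 h
  have hdisj : Disjoint ((U \ Y) \ C) Y := by
    rw [disjoint_left]
    intro v hv
    simp only [mem_sdiff] at hv
    exact hv.1.2
  have hP : P \ (U \ C) = (P \ U) ∪ C := by
    ext v
    simp only [mem_sdiff, mem_union]
    constructor
    · rintro ⟨h1, h2⟩
      by_cases hc : v ∈ C
      · exact Or.inr hc
      · refine Or.inl ⟨h1, fun hu => h2 ⟨hu, hc⟩⟩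
    · rintro (⟨h1, h2⟩ | h)
      · exact ⟨h1, fun h => h2 h.1⟩
      · exact ⟨hU (hCU h), fun h' => h'.2 h⟩
  have hPdisj : Disjoint (P \ U) C := by
    rw [disjoint_left]
    intro v hv hc
    exact (mem_sdiff.mp hv).2 (hCU hc)
  unfold bw
  rw [hP]
  rw [sum_congr rfl (fun v _ => by rw [dg_union G hPdisj])]
  rw [hsplit, sum_union hdisj]
  congr 1
  apply sum_congr rfl
  intro v hv
  rw [dg_eq_zero G (A := C) (v := v), add_zero]
  intro w hw hadj
  exact hno w hw v hv hadj.symm

omit [Fintype V] in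
theorem bw_split (r : ℕ) {P U Y C : Finset V} (hY : Y ⊆ U) (hC : C ⊆ U \ Y) :
    bw G r P U = ∑ v ∈ C, min r (dg G (P \ U) v) + ∑ v ∈ (U \ Y) \ C, min r (dg G (P \ U) v) +
      ∑ y ∈ Y, min r (dg G (P \ U) y) := by
  unfold bw
  have h1 : ∑ v ∈ U, min r (dg G (P \ U) v) =
      ∑ v ∈ U \ Y, min r (dg G (P \ U) v) + ∑ y ∈ Y, min r (dg G (P \ U) y) :=
    (sum_sdiff hY).symm
  rw [h1, ← sum_sdiff hC]
  ring

omit [Fintype V] in
theorem card_split {U Y C : Finset V} (hY : Y ⊆ U) (hC : C ⊆ U \ Y) :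
    U.card = C.card + ((U \ Y) \ C).card + Y.card := by
  have h1 := card_sdiff_add_card_eq_card hY
  have h2 := card_sdiff_add_card_eq_card hC
  omega

omit [Fintype V] in
/-- Alive vertices stay alive: for `v` on the other side the outside degree does not change. -/
theorem dg_other_side {P U Y C : Finset V} (hU : U ⊆ P) (hC : C ⊆ U \ Y)
    (hno : ∀ u ∈ C, ∀ v ∈ (U \ Y) \ C, ¬ G.Adj u v) {v : V} (hv : v ∈ (U \ Y) \ C) :
    dg G (P \ (U \ C)) v = dg G (P \ U) v := by
  have hCU : C ⊆ U := hC.trans sdiff_subset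
  have hP : P \ (U \ C) = (P \ U) ∪ C := by
    ext v
    simp only [mem_sdiff, mem_union]
    constructor
    · rintro ⟨h1, h2⟩
      by_cases hc : v ∈ C
      · exact Or.inr hc
      · refine Or.inl ⟨h1, fun hu => h2 ⟨hu, hc⟩⟩
    · rintro (⟨h1, h2⟩ | h)
      · exact ⟨h1, fun h => h2 h.1⟩
      · exact ⟨hU (hCU h), fun h' => h'.2 h⟩
  have hPdisj : Disjoint (P \ U) C := by
    rw [disjoint_left]
    intro v hv hc
    exact (mem_sdiff.mp hv).2 (hCU hc)
  rw [hP, dg_union G hPdisj, dg_eq_zero G (A := C) (v := v), add_zero]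
  intro w hw hadj
  exact hno w hw v hv hadj.symm

omit [Fintype V] in
/-- The descent: a set `U ⊆ P` of small boundary weight with an inner vertex contains an
`(r+1)`-connected subset. -/
theorem descent (r : ℕ) (hr : 1 ≤ r) (P : Finset V) (hdeg : ∀ v ∈ P, 3 * r ≤ dg G P v + 1) :
    ∀ n : ℕ, ∀ U ⊆ P, U.card = n → bw G r P U < 2 * r * r → (∃ v ∈ U, dg G (P \ U) v < r) →
      ∃ S ⊆ U, KConn G (r + 1) S := by
  intro n
  induction n using Nat.strong_induction_on with
  | _ n ih =>
  intro U hU hn hbw ⟨v₀, hv₀U, hv₀⟩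
  by_contra hS
  push Not at hS
  have hsplitP : P = (P \ U) ∪ U := by rw [sdiff_union_of_subset hU]
  have hdsum : ∀ v, dg G P v = dg G (P \ U) v + dg G U v := by
    intro v
    conv_lhs => rw [hsplitP]
    exact dg_union G disjoint_sdiff_self_left v
  -- size of U
  have hUbig : 2 * r + 1 ≤ U.card := by
    have h1 := dg_lt_card_of_mem G hv₀U
    have h2 := hdeg v₀ (hU hv₀U)
    have h3 := hdsum v₀
    omega
  have hUn := hS U Subset.rfl
  unfold KConn at hUn
  push Not at hUn
  obtain ⟨Y, hYU, hYc, hYl⟩ := hUn (by omega)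
  have hUY : (U \ Y).Nonempty := by
    rw [← card_pos]
    have := card_sdiff_add_card_eq_card hYU
    omega
  unfold Linked at hYl
  push Not at hYl
  obtain ⟨C, hC, hCn, hC2, hno⟩ := hYl hUY
  have hcs := card_split hYU hC
  have hbs := bw_split G r (P := P) hYU hC
  -- side 2 := (U \ Y) \ C
  set D := (U \ Y) \ C with hD
  have hDsub : D ⊆ U \ Y := sdiff_subset
  have hCD : (U \ Y) \ D = C := by
    rw [hD]; exact Finset.sdiff_sdiff_eq_self hC
  have hno' : ∀ u ∈ D, ∀ v ∈ (U \ Y) \ D, ¬ G.Adj u v := by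
    intro u hu v hv hadj
    rw [hCD] at hv
    exact hno v hv u hu hadj.symm
  have hb1 := bw_side G r hU hYU hC hno
  have hb2 := bw_side G r hU hYU hDsub hno'
  rw [hCD] at hb2
  rw [← hD] at hb1
  have hcardC : 0 < C.card := card_pos.mpr hCn
  have hcardD : 0 < D.card := card_pos.mpr hC2
  have hCU : C ⊆ U := hC.trans sdiff_subset
  have hDU : D ⊆ U := hDsub.trans sdiff_subset
  have hYr : Y.card ≤ r := by omega
  -- the two induction steps
  have key : ∀ C' D' : Finset V, C' ⊆ U \ Y → (U \ Y) \ C' = D' → C'.Nonempty →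
      (∀ u ∈ C', ∀ v ∈ (U \ Y) \ C', ¬ G.Adj u v) → (∃ v ∈ D', dg G (P \ U) v < r) →
      2 * r * r ≤ bw G r P (U \ C') := by
    intro C' D' hC' hD' hC'n hno'' ⟨v, hv, hvr⟩
    by_contra hlt
    push Not at hlt
    have hlt2 : (U \ C').card < n := by
      rw [← hn]
      apply card_lt_card
      refine ⟨sdiff_subset, fun h => ?_⟩
      obtain ⟨c, hc⟩ := hC'n
      have hcU : c ∈ U := (mem_sdiff.mp (hC' hc)).1
      exact (mem_sdiff.mp (h hcU)).2 hc
    have hvD : v ∈ (U \ Y) \ C' := by rw [hD']; exact hv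
    have hvUC : v ∈ U \ C' := by
      rw [mem_sdiff] at hvD ⊢
      exact ⟨(mem_sdiff.mp hvD.1).1, hvD.2⟩
    obtain ⟨S, hSU, hSK⟩ := ih _ hlt2 (U \ C') (sdiff_subset.trans hU) rfl hlt
      ⟨v, hvUC, by rw [dg_other_side G hU hC' hno'' hvD]; exact hvr⟩
    exact hS S (hSU.trans sdiff_subset) hSK
  have hY_le : ∀ E : Finset V, ∑ y ∈ Y, min r (dg G (P \ U) y + dg G E y) ≤ r * r := by
    intro E
    calc ∑ y ∈ Y, min r (dg G (P \ U) y + dg G E y) ≤ ∑ _y ∈ Y, r :=
          sum_le_sum (fun y _ => min_le_left _ _)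
      _ = Y.card * r := by rw [sum_const, smul_eq_mul]
      _ ≤ r * r := Nat.mul_le_mul_right _ hYr
  have hY_le2 : ∀ E : Finset V, ∑ y ∈ Y, min r (dg G (P \ U) y + dg G E y) ≤
      ∑ y ∈ Y, min r (dg G (P \ U) y) + r * E.card := by
    intro E
    calc ∑ y ∈ Y, min r (dg G (P \ U) y + dg G E y) ≤
          ∑ y ∈ Y, (min r (dg G (P \ U) y) + E.card) := by
            apply sum_le_sum
            intro y _
            have := dg_le_card G E y
            omega
      _ = ∑ y ∈ Y, min r (dg G (P \ U) y) + Y.card * E.card := by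
            rw [sum_add_distrib, sum_const, smul_eq_mul]
      _ ≤ _ := by
            have := Nat.mul_le_mul_right E.card hYr
            omega
  have useless : ∀ E : Finset V, (∀ v ∈ E, r ≤ dg G (P \ U) v) →
      ∑ v ∈ E, min r (dg G (P \ U) v) = r * E.card := by
    intro E hE
    rw [sum_congr rfl (fun v hv => min_eq_left (hE v hv)), sum_const, smul_eq_mul, mul_comm]
  by_cases hCal : ∃ v ∈ C, dg G (P \ U) v < r
  · by_cases hDal : ∃ v ∈ D, dg G (P \ U) v < r
    · have k1 := key C D hC rfl hCn hno hDal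
      have k2 := key D C hDsub hCD hC2 hno' hCal
      have e1 := hY_le C
      have e2 := hY_le D
      have hrr : 2 * r * r = r * r + r * r := by ring
      omega
    · push Not at hDal
      have k2 := key D C hDsub hCD hC2 hno' hCal
      have e2 := hY_le2 D
      have e3 := useless D hDal
      omega
  · push Not at hCal
    by_cases hDal : ∃ v ∈ D, dg G (P \ U) v < r
    · have k1 := key C D hC rfl hCn hno hDal
      have e2 := hY_le2 C
      have e3 := useless C hCal
      omega
    · push Not at hDal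
      have e3 := useless C hCal
      have e4 := useless D hDal
      have e5 : Y.card * (3 * r - U.card) ≤ ∑ y ∈ Y, min r (dg G (P \ U) y) := by
        calc Y.card * (3 * r - U.card) = ∑ _y ∈ Y, (3 * r - U.card) := by
              rw [sum_const, smul_eq_mul]
          _ ≤ ∑ y ∈ Y, min r (dg G (P \ U) y) := by
              apply sum_le_sum
              intro y hy
              have h1 := dg_lt_card_of_mem G (hYU hy)
              have h2 := hdeg y (hU (hYU hy))
              have h3 := hdsum y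
              omega
      -- now bw ≥ r(|U| - |Y|) + |Y| (3r - |U|) ≥ 2 r²
      have hUc : U.card = C.card + D.card + Y.card := hcs
      have hbw2 : (r : ℤ) * C.card + r * D.card + (Y.card : ℤ) * (3 * r - U.card) < 2 * r * r := by
        have h1 : r * C.card + r * D.card + Y.card * (3 * r - U.card) < 2 * r * r := by omega
        have h2 : ((r * C.card + r * D.card + Y.card * (3 * r - U.card) : ℕ) : ℤ) <
            ((2 * r * r : ℕ) : ℤ) := by exact_mod_cast h1
        have h3 : ((3 * r : ℕ) : ℤ) - (U.card : ℤ) ≤ ((3 * r - U.card : ℕ) : ℤ) := by omega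
        have h4 : (Y.card : ℤ) * (((3 * r : ℕ) : ℤ) - (U.card : ℤ)) ≤
            (Y.card : ℤ) * ((3 * r - U.card : ℕ) : ℤ) :=
          mul_le_mul_of_nonneg_left h3 (Int.natCast_nonneg _)
        push_cast at h2 h4
        linarith
      have hc1 : (U.card : ℤ) = C.card + D.card + Y.card := by exact_mod_cast hUc
      have hy1 : (Y.card : ℤ) ≤ r := by exact_mod_cast hYr
      have hu1 : (2 : ℤ) * r + 1 ≤ U.card := by exact_mod_cast hUbig
      have hx : ((r : ℤ) - Y.card) * ((U.card : ℤ) - 2 * r) ≥ 0 :=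
        mul_nonneg (by linarith) (by linarith)
      have hCDr : (r : ℤ) * C.card + r * D.card = r * (U.card - Y.card) := by
        rw [hc1]; ring
      nlinarith

omit [Fintype V] in
/-- Every nonempty set `P` inducing minimum degree at least `3 r - 1` contains a subset inducing
an `(r+1)`-connected graph. -/
theorem exists_kconn_of_dg (r : ℕ) (hr : 1 ≤ r) (P : Finset V) (hP : P.Nonempty)
    (hdeg : ∀ v ∈ P, 3 * r ≤ dg G P v + 1) : ∃ S ⊆ P, KConn G (r + 1) S := by
  obtain ⟨v, hv⟩ := hP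
  have h0 : ∀ v, dg G (P \ P) v = 0 := by
    intro v
    apply dg_eq_zero
    intro w hw
    exact absurd (mem_sdiff.mp hw).1 (mem_sdiff.mp hw).2
  refine descent G r hr P hdeg P.card P Subset.rfl rfl ?_ ⟨v, hv, by rw [h0]; omega⟩
  have h1 : bw G r P P = 0 := by
    unfold bw
    apply sum_eq_zero
    intro v _
    rw [h0, Nat.min_zero]
  rw [h1]
  positivity

end Pool.Agent.Helper434_conn
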