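import Pool.Agent.Helper434_conn.Basic

set_option autoImplicit false

/-!
A mountain-pass argument for bipartitions of a graph.
-/

namespace Pool.Agent.Helper434_conn

open Finset

variable {V : Type*} [Fintype V] [DecidableEq V] (G : SimpleGraph V) [DecidableRel G.Adj]

/-- Twice the number of edges inside `A`. -/
def ee (A : Finset V) : ℕ := ∑ v ∈ A, dg G A v

omit [Fintype V] in
theorem ee_insert {A : Finset V} {u : V} (hu : u ∉ A) :
    ee G (insert u A) = ee G A + 2 * dg G A u := by
  unfold ee
  rw [sum_insert hu, dg_insert_self G hu]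
  rw [sum_congr rfl (fun v _ => dg_insert G hu v), sum_add_distrib]
  have h : ∑ v ∈ A, (if G.Adj v u then 1 else 0) = dg G A u := by
    unfold dg
    rw [card_filter]
    apply sum_congr rfl
    intro v _
    simp [G.adj_comm]
  rw [h]
  ring

/-- The height of a bipartition `(A, Aᶜ)`. -/
def hgt (a b : ℕ) (A : Finset V) : ℤ :=
  (ee G A : ℤ) + ee G Aᶜ + 2 * b * A.card + 2 * a * (Aᶜ).card

theorem hgt_insert (a b : ℕ) {A : Finset V} {u : V} (hu : u ∉ A) :
    hgt G a b (insert u A) = hgt G a b A + 2 * ((dg G A u : ℤ) + b - dg G Aᶜ u - a) := by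
  have hc : Aᶜ = insert u (insert u A)ᶜ := by
    ext v
    simp only [mem_compl, mem_insert]
    by_cases h : v = u
    · subst h; simp [hu]
    · simp [h]
  have hu2 : u ∉ (insert u A)ᶜ := by simp
  have h1 := ee_insert G hu
  have h2 : ee G Aᶜ = ee G (insert u A)ᶜ + 2 * dg G (insert u A)ᶜ u := by
    conv_lhs => rw [hc]
    exact ee_insert G hu2
  have h3 : dg G Aᶜ u = dg G (insert u A)ᶜ u := by
    conv_lhs => rw [hc]
    exact dg_insert_self G hu2
  have h4 : (insert u A).card = A.card + 1 := card_insert_of_notMem hu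
  have h5 : (Aᶜ).card = ((insert u A)ᶜ).card + 1 := by
    conv_lhs => rw [hc]
    exact card_insert_of_notMem hu2
  unfold hgt
  rw [h1, h2, h3, h4, h5]
  push_cast
  ring

theorem hgt_erase (a b : ℕ) {A : Finset V} {u : V} (hu : u ∈ A) :
    hgt G a b (A.erase u) = hgt G a b A + 2 * ((dg G Aᶜ u : ℤ) + a - dg G A u - b) := by
  have h1 := hgt_insert G a b (A := A.erase u) (u := u) (by simp)
  rw [insert_erase hu] at h1
  have h2 : dg G A u = dg G (A.erase u) u := by
    conv_lhs => rw [← insert_erase hu]
    exact dg_insert_self G (by simp)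
  have h3 : dg G (A.erase u)ᶜ u = dg G Aᶜ u := by
    have : (A.erase u)ᶜ = insert u Aᶜ := by
      ext v; simp [mem_compl]
    rw [this]
    exact dg_insert_self G (by simp [hu])
  rw [h1, h2, h3]
  ring

/-- **Mountain pass theorem.** -/
theorem mountain_pass (a b : ℕ) (L R : Finset V → Prop)
    (hLmono : ∀ A B, A ⊆ B → L A → L B) (hRanti : ∀ A B, A ⊆ B → R B → R A)
    (hLlow : ∀ A : Finset V, A.Nonempty → ¬ L A → ∃ x ∈ A, dg G A x < a)
    (hRlow : ∀ A : Finset V, (Aᶜ).Nonempty → ¬ R A → ∃ y ∈ Aᶜ, dg G Aᶜ y < b)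
    (hL1 : ∀ v, ¬ L {v}) (hR1 : ∀ v, ¬ R {v}ᶜ) (hLtop : L univ) (hRbot : R ∅)
    (hdeg : ∀ v, a + b + 1 ≤ G.degree v) : ∃ A, L A ∧ R A := by
  by_contra hcon
  push Not at hcon
  -- transitions of height at least `h`
  let T : ℤ → Prop := fun h =>
    (∃ A, ¬ L A ∧ ¬ R A ∧ h ≤ hgt G a b A) ∨
    (∃ A u, u ∈ A ∧ L A ∧ R (A.erase u) ∧ h ≤ hgt G a b A ∧ h ≤ hgt G a b (A.erase u))
  obtain ⟨bd, hbd⟩ := ((univ : Finset (Finset V)).image (hgt G a b)).exists_le
  have hbd' : ∀ A, hgt G a b A ≤ bd := fun A => hbd _ (mem_image_of_mem _ (mem_univ A))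
  have hinh : ∃ h, T h := by
    -- a minimal member of L
    classical
    obtain ⟨A, hA, hAmin⟩ := exists_min_image ((univ : Finset (Finset V)).filter L)
      (fun A => A.card) ⟨univ, by rw [mem_filter]; exact ⟨mem_univ _, hLtop⟩⟩
    rw [mem_filter] at hA
    have hAne : A.Nonempty := by
      rw [nonempty_iff_ne_empty]
      rintro rfl
      exact hcon ∅ hA.2 hRbot
    obtain ⟨u, hu⟩ := hAne
    have hnL : ¬ L (A.erase u) := by
      intro h
      have h1 := hAmin (A.erase u) (by rw [mem_filter]; exact ⟨mem_univ _, h⟩)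
      have h2 := card_erase_lt_of_mem hu
      omega
    by_cases hR : R (A.erase u)
    · exact ⟨min (hgt G a b A) (hgt G a b (A.erase u)),
        Or.inr ⟨A, u, hu, hA.2, hR, min_le_left _ _, min_le_right _ _⟩⟩
    · exact ⟨hgt G a b (A.erase u), Or.inl ⟨A.erase u, hnL, hR, le_refl _⟩⟩
  obtain ⟨M, hTM, hmax⟩ := Int.exists_greatest_of_bdd (P := T)
    ⟨bd, by
      rintro z (⟨A, -, -, h⟩ | ⟨A, u, -, -, -, h, -⟩)
      · exact h.trans (hbd' A)
      · exact h.trans (hbd' A)⟩ hinh
  have hsum : ∀ A v, dg G A v + dg G Aᶜ v = G.degree v := fun A v => dg_add_compl G A v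
  -- a crossing of maximum height has height `M` at both ends
  have stepL : ∀ A u, u ∈ A → L A → R (A.erase u) → M ≤ hgt G a b A →
      M ≤ hgt G a b (A.erase u) →
      hgt G a b A = M ∧ ∃ x ∈ A, L A ∧ R (A.erase x) ∧ M + 2 ≤ hgt G a b (A.erase x) := by
    intro A u hu hLA hRA h1 h2
    have hPL : ¬ L (A.erase u) := fun h => hcon _ h hRA
    have hPne : (A.erase u).Nonempty := by
      rw [nonempty_iff_ne_empty]
      intro h
      have : A = {u} := by
        rw [← insert_erase hu, h]; rfl
      rw [this] at hLA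
      exact hL1 u hLA
    obtain ⟨x, hxP, hxlow⟩ := hLlow _ hPne hPL
    have hxA : x ∈ A := mem_of_mem_erase hxP
    have hxu : x ≠ u := ne_of_mem_erase hxP
    have huA' : u ∉ A.erase u := by simp
    have hdA : dg G A x ≤ dg G (A.erase u) x + 1 := by
      conv_lhs => rw [← insert_erase hu]
      rw [dg_insert G huA']
      split_ifs <;> omega
    have hF1 := hgt_erase G a b hxA
    have hF2 := hgt_erase G a b hxP
    have hs1 := hsum A x
    have hs2 := hsum (A.erase u) x
    have hd := hdeg x
    have hg1 : hgt G a b A + 2 ≤ hgt G a b (A.erase x) := by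
      rw [hF1]; omega
    have hg2 : hgt G a b (A.erase u) + 2 ≤ hgt G a b ((A.erase u).erase x) := by
      rw [hF2]; omega
    have hcomm : (A.erase u).erase x = (A.erase x).erase u := erase_right_comm
    have hnL : ¬ L (A.erase x) := by
      intro hL
      have huAx : u ∈ A.erase x := mem_erase.mpr ⟨hxu.symm, hu⟩
      have hRR : R ((A.erase x).erase u) := by
        rw [← hcomm]
        exact hRanti _ _ (erase_subset _ _) hRA
      have hT : T (M + 2) := by
        refine Or.inr ⟨A.erase x, u, huAx, hL, hRR, by omega, ?_⟩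
        rw [← hcomm]; omega
      have := hmax _ hT
      omega
    have hRx : R (A.erase x) := by
      by_contra hR
      have hT : T (M + 2) := Or.inl ⟨A.erase x, hnL, hR, by omega⟩
      have := hmax _ hT
      omega
    have hFA : hgt G a b A ≤ M := by
      apply hmax
      exact Or.inr ⟨A, x, hxA, hLA, hRx, le_refl _, by omega⟩
    exact ⟨by omega, x, hxA, hLA, hRx, by omega⟩
  have stepR : ∀ A u, u ∈ A → L A → R (A.erase u) → M ≤ hgt G a b A →
      M ≤ hgt G a b (A.erase u) → hgt G a b (A.erase u) = M := by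
    intro A u hu hLA hRA h1 h2
    have hAR : ¬ R A := fun h => hcon _ hLA h
    have hQne : (Aᶜ).Nonempty := by
      rw [nonempty_iff_ne_empty]
      intro h
      have h3 : A = univ := by
        rw [← compl_compl A, h, compl_empty]
      rw [h3] at hRA
      have h4 : (univ : Finset V).erase u = {u}ᶜ := by
        ext v; simp
      rw [h4] at hRA
      exact hR1 u hRA
    obtain ⟨y, hyQ, hylow⟩ := hRlow _ hQne hAR
    have hyA : y ∉ A := by simpa using hyQ
    have hyu : y ≠ u := fun h => hyA (h ▸ hu)
    have hyP : y ∉ A.erase u := fun h => hyA (mem_of_mem_erase h)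
    have hPc : (A.erase u)ᶜ = insert u Aᶜ := by
      ext v; simp [mem_compl]
    have huc : u ∉ Aᶜ := by simp [hu]
    have hdQ : dg G (A.erase u)ᶜ y ≤ dg G Aᶜ y + 1 := by
      rw [hPc, dg_insert G huc]
      split_ifs <;> omega
    have hF1 := hgt_insert G a b hyA
    have hF2 := hgt_insert G a b hyP
    have hs1 := hsum A y
    have hs2 := hsum (A.erase u) y
    have hd := hdeg y
    have hg1 : hgt G a b A + 2 ≤ hgt G a b (insert y A) := by
      rw [hF1]; omega
    have hg2 : hgt G a b (A.erase u) + 2 ≤ hgt G a b (insert y (A.erase u)) := by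
      rw [hF2]; omega
    have hcomm : insert y (A.erase u) = (insert y A).erase u := by
      rw [erase_insert_of_ne hyu]
    have hnR : ¬ R (insert y (A.erase u)) := by
      intro hR
      rw [hcomm] at hR
      have hT : T (M + 2) := by
        refine Or.inr ⟨insert y A, u, mem_insert_of_mem hu, hLmono _ _ (subset_insert _ _) hLA, hR,
          by omega, ?_⟩
        rw [← hcomm]; omega
      have := hmax _ hT
      omega
    have hLy : L (insert y (A.erase u)) := by
      by_contra hL
      have hT : T (M + 2) := Or.inl ⟨_, hL, hnR, by omega⟩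
      have := hmax _ hT
      omega
    have hFA : hgt G a b (A.erase u) ≤ M := by
      apply hmax
      refine Or.inr ⟨insert y (A.erase u), y, mem_insert_self _ _, hLy, ?_, by omega, ?_⟩
      · rw [erase_insert hyP]; exact hRA
      · rw [erase_insert hyP]
    omega
  rcases hTM with ⟨A, hnL, hnR, hM⟩ | ⟨A, u, hu, hLA, hRA, h1, h2⟩
  · -- type I
    have hAne : A.Nonempty := by
      rw [nonempty_iff_ne_empty]
      rintro rfl
      exact hnR hRbot
    have hAcne : (Aᶜ).Nonempty := by
      rw [nonempty_iff_ne_empty]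
      intro h
      have h3 : A = univ := by
        rw [← compl_compl A, h, compl_empty]
      exact hnL (h3 ▸ hLtop)
    obtain ⟨x, hxA, hxlow⟩ := hLlow _ hAne hnL
    obtain ⟨y, hyA', hylow⟩ := hRlow _ hAcne hnR
    have hyA : y ∉ A := by simpa using hyA'
    have hxy : x ≠ y := fun h => hyA (h ▸ hxA)
    have hs1 := hsum A x
    have hs2 := hsum A y
    have hdx := hdeg x
    have hdy := hdeg y
    have hF1 := hgt_erase G a b hxA
    have hF2 := hgt_insert G a b hyA
    have hg1 : hgt G a b A + 6 ≤ hgt G a b (A.erase x) := by rw [hF1]; omega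
    have hg2 : hgt G a b A + 6 ≤ hgt G a b (insert y A) := by rw [hF2]; omega
    have hRx : R (A.erase x) := by
      by_contra hR
      have hT : T (M + 6) := Or.inl ⟨A.erase x, fun h => hnL (hLmono _ _ (erase_subset _ _) h), hR,
        by omega⟩
      have := hmax _ hT
      omega
    have hLy : L (insert y A) := by
      by_contra hL
      have hT : T (M + 6) := Or.inl ⟨insert y A, hL,
        fun h => hnR (hRanti _ _ (subset_insert _ _) h), by omega⟩
      have := hmax _ hT
      omega
    have hxiA : x ∈ insert y A := mem_insert_of_mem hxA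
    have hdx2 : dg G (insert y A) x ≤ dg G A x + 1 := by
      rw [dg_insert G hyA]; split_ifs <;> omega
    have hs3 := hsum (insert y A) x
    have hF3 := hgt_erase G a b hxiA
    have hg3 : hgt G a b (insert y A) + 2 ≤ hgt G a b ((insert y A).erase x) := by
      rw [hF3]; omega
    have hyC : y ∈ (insert y A).erase x := mem_erase.mpr ⟨hxy.symm, mem_insert_self _ _⟩
    have hCe : ((insert y A).erase x).erase y = A.erase x := by
      rw [erase_right_comm, erase_insert hyA]
    by_cases hLC : L ((insert y A).erase x)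
    · have hT : T (M + 6) := by
        refine Or.inr ⟨(insert y A).erase x, y, hyC, hLC, ?_, by omega, ?_⟩
        · rw [hCe]; exact hRx
        · rw [hCe]; omega
      have := hmax _ hT
      omega
    · by_cases hRC : R ((insert y A).erase x)
      · have hT : T (M + 6) := Or.inr ⟨insert y A, x, hxiA, hLy, hRC, by omega, by omega⟩
        have := hmax _ hT
        omega
      · have hT : T (M + 6) := Or.inl ⟨_, hLC, hRC, by omega⟩
        have := hmax _ hT
        omega
  · obtain ⟨-, x, hxA, -, hRx, hx2⟩ := stepL A u hu hLA hRA h1 h2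
    have h3 := stepR A x hxA hLA hRx h1 (by omega)
    omega

end Pool.Agent.Helper434_conn
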