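import Pool.Agent.Helper434_conn.MinDeg
import Pool.Agent.Helper434_conn.Pass
import Pool.Agent.Helper434_conn.Extend

set_option autoImplicit false

namespace Pool.Agent.Helper434_conn

open Finset

variable {V : Type*} [Fintype V] [DecidableEq V] (G : SimpleGraph V) [DecidableRel G.Adj]

/-- Minimum degree at least `3s + 3t - 7` forces disjoint `s`-connected and `t`-connected
subgraphs. -/
theorem exists_disjoint_kconn [Nonempty V] (s t : ℕ) (hs : 2 ≤ s) (ht : 2 ≤ t)
    (hdeg : ∀ v, 3 * s + 3 * t - 7 ≤ G.degree v) :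
    ∃ A B : Finset V, Disjoint A B ∧ KConn G s A ∧ KConn G t B := by
  obtain ⟨r, rfl⟩ : ∃ r, s = r + 1 := ⟨s - 1, by omega⟩
  obtain ⟨q, rfl⟩ : ∃ q, t = q + 1 := ⟨t - 1, by omega⟩
  have single : ∀ (k : ℕ) (v : V) (S : Finset V), S ⊆ {v} → 1 ≤ k → ¬ KConn G k S := by
    intro k v S hS hk hK
    have h1 := card_le_card hS
    have h2 := hK.1
    rw [card_singleton] at h1
    omega
  obtain ⟨A, ⟨S, hSA, hS⟩, ⟨T, hTA, hT⟩⟩ := mountain_pass G (3 * r - 1) (3 * q - 1)
    (fun A => ∃ S ⊆ A, KConn G (r + 1) S) (fun A => ∃ T ⊆ Aᶜ, KConn G (q + 1) T)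
    (fun A B hAB ⟨S, hS, hK⟩ => ⟨S, hS.trans hAB, hK⟩)
    (fun A B hAB ⟨T, hT, hK⟩ => ⟨T, hT.trans (compl_subset_compl.mpr hAB), hK⟩)
    (by
      intro A hA hnot
      by_contra hcon
      push Not at hcon
      exact hnot (exists_kconn_of_dg G r (by omega) A hA (fun v hv => by
        have := hcon v hv
        omega)))
    (by
      intro A hA hnot
      by_contra hcon
      push Not at hcon
      exact hnot (exists_kconn_of_dg G q (by omega) Aᶜ hA (fun v hv => by
        have := hcon v hv
        omega)))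
    (by
      rintro v ⟨S, hS, hK⟩
      exact single _ v S hS (by omega) hK)
    (by
      rintro v ⟨S, hS, hK⟩
      rw [compl_compl] at hS
      exact single _ v S hS (by omega) hK)
    (by
      refine exists_kconn_of_dg G r (by omega) univ univ_nonempty (fun v _ => ?_)
      have h1 := hdeg v
      have h2 := dg_add_compl G univ v
      rw [compl_univ] at h2
      have h3 := dg_le_card G (∅ : Finset V) v
      rw [card_empty] at h3
      omega)
    (by
      rw [compl_empty]
      refine exists_kconn_of_dg G q (by omega) univ univ_nonempty (fun v _ => ?_)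
      have h1 := hdeg v
      have h2 := dg_add_compl G univ v
      rw [compl_univ] at h2
      have h3 := dg_le_card G (∅ : Finset V) v
      rw [card_empty] at h3
      omega)
    (by
      intro v
      have h1 := hdeg v
      omega)
  refine ⟨S, T, ?_, hS, hT⟩
  rw [disjoint_left]
  intro v hv hv2
  exact (mem_compl.mp (hTA hv2)) (hSA hv)

/-- The vertex set of an `(s+t-1)`-connected graph of minimum degree at least `3s + 3t - 7`
splits into an `s`-connected and a `t`-connected part. -/
theorem exists_split (s t : ℕ) (hs : 2 ≤ s) (ht : 2 ≤ t)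
    (hG : KConn G (s + t - 1) (univ : Finset V))
    (hdeg : ∀ v, 3 * s + 3 * t - 7 ≤ G.degree v) :
    ∃ A B : Finset V, Disjoint A B ∧ A ∪ B = univ ∧ KConn G s A ∧ KConn G t B := by
  have hne : (univ : Finset V).Nonempty := card_pos.mp (lt_of_le_of_lt (Nat.zero_le _) hG.1)
  haveI : Nonempty V := ⟨hne.choose⟩
  obtain ⟨A, B, hd, hA, hB⟩ := exists_disjoint_kconn G s t hs ht hdeg
  exact exists_partition G s t (by omega) hG hA hB hd

end Pool.Agent.Helper434_conn
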